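import Pool.Agent.L7h3.GL.Stm

/-! Project GL (MP_246c79_co), part GOOD. -/

namespace Pool.Agent.L7h13.GL
open Cardinal Pool.Agent.L7h3.GL

/-- The elements of a saturated chain are above its first element. -/
theorem ge_of_chain {L : Type} [CompleteLattice L] : ∀ (l : List L) (w : L), l.head? = some w →
    l.IsChain (· ⋖ ·) → ∀ z ∈ l, w ≤ z := by
  intro l
  induction l with
  | nil => intro w h; simp at h
  | cons a l ih =>
    intro w hw hc z hz
    have haw : a = w := by simpa using hw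
    subst haw
    rcases List.mem_cons.mp hz with rfl | hz'
    · exact le_rfl
    · cases l with
      | nil => simp at hz'
      | cons c l' =>
        have h1 := List.isChain_cons_cons.mp hc
        exact h1.1.le.trans (ih c rfl h1.2 z hz')

/-- Two comparable elements covering `b` are equal. -/
theorem eq_of_cv {L : Type} [CompleteLattice L] {b : L} {T : Set L} (hT : Cv b T) {x y : L}
    (hx : x ∈ T) (hy : y ∈ T) (h : x ≤ y) : x = y := by
  by_contra hne
  exact (hT y hy).2 (hT x hx).1 (lt_of_le_of_ne h hne)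

/-- The union of fewer than `κ` finite lists has fewer than `κ` elements, for infinite `κ`. -/
theorem mk_union_lt {L : Type} (B : Set L) (p : L → List L) (κ : Cardinal.{0}) (hκ : ℵ₀ ≤ κ)
    (hB : #B < κ) : #({z | ∃ x ∈ B, z ∈ p x} : Set L) < κ := by
  have hfin : ∀ x : L, ({z | z ∈ p x} : Set L).Finite := fun x => List.finite_toSet (p x)
  have hW : ({z | ∃ x ∈ B, z ∈ p x} : Set L) = ⋃ x : B, {z | z ∈ p x.1} := by
    ext z
    simp
  rcases B.finite_or_infinite with hf | hi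
  · have : ({z | ∃ x ∈ B, z ∈ p x} : Set L).Finite := by
      rw [hW]
      have := hf.to_subtype
      exact Set.finite_iUnion fun x => hfin x.1
    exact (this.lt_aleph0).trans_le hκ
  · have hBi : ℵ₀ ≤ #B := Cardinal.infinite_iff.mp hi.to_subtype
    refine lt_of_le_of_lt ?_ hB
    rw [hW]
    refine (Cardinal.mk_iUnion_le _).trans ?_
    calc #B * ⨆ x : B, #({z | z ∈ p x.1} : Set L) ≤ #B * ℵ₀ := by
          refine mul_le_mul' le_rfl (ciSup_le' fun x => ?_)
          exact (hfin x.1).lt_aleph0.le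
      _ = #B := Cardinal.mul_aleph0_eq hBi

theorem s_GOOD (hGCON : S_GCON) (hLIFT : S_LIFT) (hRICH : S_RICH) (hGRD : S_GRD) : S_GOOD := by
  classical
  intro L _ ρ hρ b T B hT hTi hBT hBc hB hgood
  obtain ⟨p, hp1, hp2⟩ := hB
  have hκ : ℵ₀ ≤ #T := Cardinal.infinite_iff.mp hTi.to_subtype
  have hW := mk_union_lt B p #T hκ hBc
  -- the disjoint chains in the contractions
  have key : ∀ x : L, ∃ (U : Set L) (q : L → List L), x ∈ T → x ∉ B →
      U ⊆ Con x T ∧ #U = #T ∧
      (∀ a ∈ U, Pc (tp x (Con x T)) a (q a) ∧ ∀ z ∈ q a, Gen x (Con x T) z) ∧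
      ∀ a ∈ U, ∀ a' ∈ U, a ≠ a' → List.Disjoint (q a) (q a') := by
    intro x
    by_cases hx : x ∈ T ∧ x ∉ B
    · have hc := hgood x hx.1 hx.2
      have hinf : (Con x T).Infinite := by
        have : ℵ₀ ≤ #(Con x T) := by rw [hc]; exact hκ
        exact Set.infinite_coe_iff.mp (Cardinal.infinite_iff.mpr this)
      obtain ⟨U, hU1, hU2, q, hq1, hq2⟩ := hRICH L ρ hρ x (Con x T) (hGCON L ρ hρ b T x hT hx.1).1 hinf
      exact ⟨U, q, fun _ _ => ⟨hU1, hU2.trans hc, hq1, hq2⟩⟩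
    · exact ⟨∅, fun _ => [], fun h1 h2 => absurd ⟨h1, h2⟩ hx⟩
  choose U q hUq using key
  -- the transfinite choice
  obtain ⟨p', hp'1, hp'2⟩ := hGRD L {x | x ∈ T ∧ x ∉ B} {z | ∃ x ∈ B, z ∈ p x} #T
    (fun x => {l | ∃ w ∈ U x, l = q x w}) hκ (Cardinal.mk_le_mk_of_subset fun x hx => hx.1) hW (by
      intro x hx
      obtain ⟨hU1, hU2, hq1, hq2⟩ := hUq x hx.1 hx.2
      refine ⟨?_, ?_⟩
      · rw [← hU2]
        refine Cardinal.mk_le_of_injective
          (f := fun w : U x => (⟨q x w.1, w.1, w.2, rfl⟩ : {l | ∃ w ∈ U x, l = q x w})) ?_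
        intro w w' hww
        have h1 : q x w.1 = q x w'.1 := congrArg Subtype.val hww
        have h2 := (hq1 w.1 w.2).1.1
        have h3 := (hq1 w'.1 w'.2).1.1
        rw [h1, h3] at h2
        exact Subtype.ext (Option.some.inj h2).symm
      · rintro l ⟨w, hw, rfl⟩ l' ⟨w', hw', rfl⟩ hne
        exact hq2 w hw w' hw' fun h => hne (by rw [h]))
  -- the final chains
  have hfin : ∀ x ∈ T, x ∉ B → (Pc (tp b T) x (x :: p' x) ∧ ∀ z ∈ x :: p' x, Gen b T z) := by
    intro x hx hxB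
    obtain ⟨w, hw, hwe⟩ := (hp'1 x ⟨hx, hxB⟩).1
    obtain ⟨hU1, hU2, hq1, hq2⟩ := hUq x hx hxB
    rw [hwe]
    exact hLIFT L ρ hρ b T x w (q x w) hT hx (hU1 hw) (hq1 w hw).1 (hq1 w hw).2
  have hge : ∀ x ∈ T, x ∉ B → ∀ z ∈ x :: p' x, x ≤ z := fun x hx hxB z hz =>
    ge_of_chain _ _ (hfin x hx hxB).1.1 (hfin x hx hxB).1.2.1 z hz
  have hgeB : ∀ x ∈ B, ∀ z ∈ p x, x ≤ z := fun x hx z hz =>
    ge_of_chain _ _ (hp1 x hx).1.1 (hp1 x hx).1.2.1 z hz
  have hmix : ∀ x ∈ B, ∀ y ∈ T, y ∉ B → List.Disjoint (p x) (y :: p' y) := by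
    intro x hx y hy hyB z hz hz'
    rcases List.mem_cons.mp hz' with rfl | hz''
    · have := eq_of_cv hT (hBT hx) hy (hgeB x hx z hz)
      exact hyB (this ▸ hx)
    · exact (hp'1 y ⟨hy, hyB⟩).2 z hz'' ⟨x, hx, hz⟩
  refine ⟨fun x => if x ∈ B then p x else x :: p' x, ?_, ?_⟩
  · intro x hx
    by_cases hxB : x ∈ B
    · simp only [if_pos hxB]
      exact hp1 x hxB
    · simp only [if_neg hxB]
      exact hfin x hx hxB
  · intro x hx y hy hxy
    by_cases hxB : x ∈ B
    · by_cases hyB : y ∈ B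
      · simp only [if_pos hxB, if_pos hyB]
        exact hp2 x hxB y hyB hxy
      · simp only [if_pos hxB, if_neg hyB]
        exact hmix x hxB y hy hyB
    · by_cases hyB : y ∈ B
      · simp only [if_neg hxB, if_pos hyB]
        exact (hmix y hyB x hx hxB).symm
      · simp only [if_neg hxB, if_neg hyB]
        intro z hz hz'
        rcases List.mem_cons.mp hz with rfl | h1
        · exact hxy (eq_of_cv hT hy hx (hge y hy hyB z hz')).symm
        · rcases List.mem_cons.mp hz' with rfl | h2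
          · exact hxy (eq_of_cv hT hx hy (hge x hx hxB z hz))
          · exact hp'2 x ⟨hx, hxB⟩ y ⟨hy, hyB⟩ hxy h1 h2

end Pool.Agent.L7h13.GL
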